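import Mathlib
import Pool.Agent.Helper88.MT.Final

/-!
# The equality of the Mumford-Tate conjecture for `H ^ 2` is equivalent to irreducibility

Let the lattice `ℤ ^ r` carry a Hodge structure of weight zero with types `(1, -1)`, `(0, 0)`,
`(-1, 1)` and a compatible symmetric form (the situation of `H ^ 2 (X, ℤ(1))` modulo torsion). Let
`N` be the group of Hodge classes, `T` its orthogonal, `n` the rank of `T` and `g` the Hodge number
of type `(1, -1)`. Suppose that `T` is simple with endomorphism algebra `ℚ`, that `n` is odd and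
that `n > g ^ 2 + 2 g`.

Let `Γ` be a subgroup of `GL r` over the `ℓ`-adic integers which preserves the form, fixes `N` and
has determinant one, and suppose that the Lie algebra `L` of its Zariski closure contains, over an
algebraically closed field `Ω`, an operator `h` with `h ^ 3 = h` whose eigenvalue `1` has
multiplicity `m > 0` with `n > m ^ 2 + 2 m` (a Hodge-Tate operator), and that either `m` is prime
to `n` or no smaller ideal of `L` contains `h`. Then the base change to `ℤ_ℓ` of the Zariski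
closure of the Mumford-Tate group in the group scheme `GL r` over `ℤ` is equal to the Zariski
closure of `Γ` in `GL r` over `ℤ_ℓ` if and only if `L` acts irreducibly on `T ⊗ Ω`.
-/

namespace Pool.Agent.Results.MP_6369ef_ag.EqualityIffIrreducible

open Matrix Module Pool.Agent.Helper88.MT

theorem result {r : ℕ} (H : HodgeLattice r) (hsimple : H.IsSimple) (hend : H.EndIsRat)
    (hodd : Odd H.n) (hpos : 0 < H.g) (hlarge : H.g ^ 2 + 2 * H.g < H.n)
    (ℓ : ℕ) [Fact ℓ.Prime] (Γ : Subgroup (GL (Fin r) ℤ_[ℓ])) (hΓ : H.Compatible Γ)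
    (L : Set (Matrix (Fin r) (Fin r) ℚ_[ℓ]))
    (hL : L = lieGL ((Γ.map (Matrix.GeneralLinearGroup.map (algebraMap ℤ_[ℓ] ℚ_[ℓ])) :
      Subgroup (GL (Fin r) ℚ_[ℓ])) : Set (GL (Fin r) ℚ_[ℓ])))
    (Ω : Type) [Field Ω] [CharZero Ω] [IsAlgClosed Ω] [Algebra ℚ_[ℓ] Ω]
    (h : Matrix (Fin r) (Fin r) Ω) (hh : h ∈ spanOver Ω L) (hcube : h ^ 3 = h)
    (m : ℕ) (hm : m = finrank Ω (Module.End.eigenspace (Matrix.toLin' h) 1))
    (hmpos : 0 < m) (hmlarge : m ^ 2 + 2 * m < H.n)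
    (hgen : (∀ 𝔞 : Submodule ℚ_[ℓ] (Matrix (Fin r) (Fin r) ℚ_[ℓ]), (∀ x ∈ 𝔞, x ∈ L) →
        (∀ x ∈ L, ∀ y ∈ 𝔞, x * y - y * x ∈ 𝔞) →
        h ∈ spanOver Ω (𝔞 : Set (Matrix (Fin r) (Fin r) ℚ_[ℓ])) → ∀ x ∈ L, x ∈ 𝔞) ∨
      Nat.Coprime H.n m) :
    (vanGL ℤ (H.MTGroup : Set (GL (Fin r) ℂ))).map (MvPolynomial.map (Int.castRingHom ℤ_[ℓ])) =
      vanGL ℤ_[ℓ] (Γ : Set (GL (Fin r) ℤ_[ℓ])) ↔ H.ActsIrreducibly Ω L := by
  have hMT : ∀ a : GL (Fin r) ℂ, a ∈ H.MTGroup ↔ a ∈ SOGroup H ℂ := fun a ↦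
    mem_MTGroup_iff H hsimple hend hodd hpos hlarge
  subst hm
  subst hL
  have hΓF : ∀ a ∈ Γ.map (Matrix.GeneralLinearGroup.map (algebraMap ℤ_[ℓ] ℚ_[ℓ])),
      a ∈ SOGroup H ℚ_[ℓ] := fun a ha ↦ mem_SOGroup_of_compatible H hΓ ha
  rw [ideal_eq_iff (F := ℚ_[ℓ]) H hMT hΓ]
  constructor
  · intro hvan
    exact irreducible_of_vanishing H (by nlinarith [hmpos, hmlarge]) hΓF hvan
  · intro hirr
    exact vanishing_of_irreducible H hodd hΓF hh hcube hmpos hmlarge hgen hirr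

end Pool.Agent.Results.MP_6369ef_ag.EqualityIffIrreducible
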