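import Pool.Agent.Helper79.GB.Coef
import Pool.Agent.Helper79.GB.FMain
import Pool.Agent.Helper79.GB.StatH

/-!
# MP_6369ef_ag: most algebraic points of a family are Hodge generic

Definitions are in `Pool.Agent.Helper79.GB.StatH` (`NotGenericC`), `Pool.Agent.Helper79.GB.Par` (`Idx`, `polyC`, `denC`,
`pointC`), `Pool.Agent.Helper79.GB.Coef` (`basC`), `Pool.Agent.Helper79.FX.Defs` (`NextIn`, `Reach`, `IsVHS`),
`Pool.Agent.Helper79.FX.Stat` (`IsGeneric`), `Pool.Agent.Helper79.HJ.Defs` (`IsCircleElt`, `HodgeGroup`),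
`Pool.Agent.Helper79.HH.Stat` (`hodgePart`, `form`, `IsPolarized`), `Pool.Agent.Helper79.HH.StatM` (`Element`, `Element.Next`),
`Pool.Agent.Helper88.MT.Defs` (`GLPoly`, `evGL`), `Pool.Agent.Helper79.BB.StatM` (`FunctionFormsM`, `SubTensorM`, `pd`,
`IsSolutionM`, `IsPeriodM`, `IsBranchM`, `FamiliesM`), `Pool.Agent.Helper79.CU.StatC` (`tens`, `tpow`) and `Pool.Agent.Helper64.Per.Defs` (`Qbar`).
-/

open Matrix Module Pool.Agent.Helper79.BB Pool.Agent.Helper79.HH Pool.Agent.Helper79.FX
  Pool.Agent.Helper79.GB Pool.Agent.Helper64.Per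

namespace Pool.Agent.Results.MP_6369ef_ag.HodgeGeneric

/-- Let `κ` be a number field, and `a = (U, w, P)` a branch `t ↦ (t, w t)` over the connected open set `U` of a geometrically
irreducible variety `S₀` over `κ` with coordinates `t_1, …, t_m` and `w`, finite étale over the complement of a hypersurface `S = 0`
in the affine space, with the period matrix `P` of a variation of Hodge structure of weight `j` on `S₀` with a lattice and a
polarisation `ψ` (`IsVHS`; only the definition of such a variation). Let it be of geometric origin: `P` is a matrix of periods of a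
basis of a connection `E` contained in a tensor power of a sum of Gauss-Manin connections (as in `MP_290158_ag.AllBases`; for
instance the relative cohomology in some degree of a smooth projective family over `S₀`). Let `D ≥ 1`
and `e` be natural numbers, `ω_j` a basis of `κ` over `ℚ`, and `N` a finite set of pairs `(k, j)`, containing one of the pairs
`(0, j)`. Then there are numbers `C` and `θ₀ > 0` such that for all `X ≥ 1`, of the `(2X+1)^n`,
`n = (D + 1 + m (e + 1)) [κ : ℚ] + |N|`, tuples `(F, G_1, …, G_m, G_0)` of a polynomial `F = ∑_k (∑_j a_(k,j) ω_j) y^k` of degree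
at most `D`, polynomials `G_i` of this form of degree at most `e`, and `G_0 = ∑_((k,j) ∈ N) a_(k,j) ω_j y^k`, all `a_(k,j)` integers
with `|a_(k,j)| ≤ X`, at most `C X^(n - θ₀)` have a root `y` of `F` with `G_0(y) ≠ 0` such that one of the points of `S₀` above
`t = (G_1(y) / G_0(y), …, G_m(y) / G_0(y))` is not Hodge generic: for a continuation `b` of `a` in the complement of `S = 0` with
`t` in its domain the Hodge group (the special Mumford-Tate group) at `t` does not contain the Hodge groups at all points of all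
analytic continuations of `b` in the complement of `S = 0`. -/
theorem result {κ : IntermediateField ℚ Qbar} [FiniteDimensional ℚ κ] {m : ℕ} (hm : 1 ≤ m)
    {F : FamiliesM κ m} {μ r₀ r : ℕ} (E : F.Sub μ r₀ (Fin r)) {S : MvPolynomial (Fin m) κ}
    {a : Element m (Fin r)} {lev : Fin r → ℤ} {j : ℤ} {ψ : Matrix (Fin r) (Fin r) ℚ}
    (h : IsVHS (S.map (algebraMap κ ℂ)) a lev j ψ) (hw : IsBranchM κ a.U μ a.w)
    (hP : E.IsPeriod a.U a.w a.P) {J : Type} [Fintype J] (ω : Module.Basis J ℚ κ)
    {D : ℕ} (hD : 1 ≤ D) (e : ℕ) (N : Finset (ℕ × J)) (hN : ∃ j, (0, j) ∈ N) :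
    ∃ C θ₀ : ℝ, 0 < θ₀ ∧ ∀ X : ℕ, 1 ≤ X →
      ((NotGenericC (basC ω) N S a lev j D e X).ncard : ℝ) ≤
        C * (X : ℝ) ^ ((((D + 1 + m * (e + 1)) * Module.finrank ℚ κ + N.card : ℕ) : ℝ) - θ₀) :=
  genericG_count hm E h hw hP ω hD e N hN

end Pool.Agent.Results.MP_6369ef_ag.HodgeGeneric
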