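import Pool.Agent.Helper79.GB.Coef
import Pool.Agent.Helper79.GP.MainN

/-!
# MP_6369ef_ag: the Mumford-Tate conjecture for `H^2` for most fibres of a family, from its constant part

Definitions are in `Pool.Agent.Helper79.GP.StatN` (`FinConj`, `NoCentF`, `subMT`, `Q1Part`), `Pool.Agent.Helper79.GB.DefsM`
(`IsEtaleCover`, `yE`), `Pool.Agent.Helper79.GB.StatQ` (`Q1Elem`, `SmallQ1C`), `Pool.Agent.Helper79.GB.Par` (`Idx`, `polyC`, `denC`,
`pointC`), `Pool.Agent.Helper79.GB.Coef` (`basC`), `Pool.Agent.Helper79.FY.Defs` (`NextIn`, `Reach`, `base`, `pmat`, `IsLocalSystem`),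
`Pool.Agent.Helper79.FZ.Stat` (`IsMono`), `Pool.Agent.Helper79.HI.Defs` (`IsEq`, `Q1At`, `pts`), `Pool.Agent.Helper79.HI.Stat`
(`AtPoint`), `Pool.Agent.Helper79.HG.Defs` (`CoverData`, `Elem`, `Elem.Next`, `actZ`, `actP`, `fns`, `IsGalRep`, `IsHodgeElt`, `MTat`),
`Pool.Agent.Helper79.HG.StatEq` (`IsConn`, `toQl`), `Pool.Agent.Helper79.HH.Stat` (`hodgePart`, `form`, `IsPolarized`),
`Pool.Agent.Helper88.MT.Defs` (`GLPoly`, `evGL`, `vanGL`), `Pool.Agent.Helper79.BB.StatM` (`FunctionFormsM`, `SubTensorM`, `pd`,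
`IsSolutionM`, `IsPeriodM`, `FamiliesM`, `kapM`), `Pool.Agent.Helper79.CU.StatC` (`tens`, `tpow`) and
`Pool.Agent.Helper64.Per.Defs` (`Qbar`).
-/

open Matrix Module Pool.Agent.Helper79.BB Pool.Agent.Helper79.HH
  Pool.Agent.Helper79.HG Pool.Agent.Helper79.HI Pool.Agent.Helper79.FY Pool.Agent.Helper79.FZ
  Pool.Agent.Helper79.GB Pool.Agent.Helper79.GP Pool.Agent.Helper64.Per Pool.Agent.Helper88.MT

namespace Pool.Agent.Results.MP_6369ef_ag.MostFibres

/-- Let `κ` be a number field, `S₀` a geometrically irreducible variety over `κ` with coordinates `t_1, …, t_m` and `w`, finite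
étale over the complement of a hypersurface `S = 0` in the affine space (`IsEtaleCover`), and `(t, w t)`, `t ∈ U`, a branch of
`S₀`. Let `ℤ^r` be the local system on `S₀` dual to `H^2(X_s, ℤ(1))` modulo torsion, for the fibres `X_s` of a smooth
projective family over `S₀`, with a polarisation `ψ`, `P` its period matrix with respect to a basis `ω_x` of the relative de
Rham cohomology, `ω_x` of level `lev x` in the Hodge filtration, `ℓ` a prime number, and `Y k` the étale cover of `S₀` given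
by the local system modulo `ℓ^k`, defined over `κ` (`IsLocalSystem`: the definition of a polarised variation of Hodge
structure and of its étale covers, in coordinates). `P` is a matrix of periods of a connection `E` contained in a tensor power
of a sum of Gauss-Manin connections (as in `MP_290158_ag.AllBases`).

Let `N` be the lattice of the integral vectors with finitely many conjugates under the monodromy group (the constant part), with
basis the columns of `B`, and `𝓔` a set of endomorphisms of `ℚ^r` with finitely many conjugates. Suppose that no nonzero operator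
in `so(T)`, `T` the orthogonal of `N` (a rational matrix skew for `ψ` which kills `N`), commutes with `𝓔` and with a subgroup of
finite index of the monodromy group (`NoCentF`). Let `t₀ ∈ U` be algebraic, and suppose that for the one fibre at `(t₀, w t₀)` the
Galois representation preserves `ψ` and `N`, the elements of `𝓔` are Hodge classes and Tate classes (for instance algebraic
correspondences; `𝓔` may be empty), and the equality of Q1 holds at `ℓ` for `N` (`Q1Part`; it holds trivially if `N` consists of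
divisor classes).

Let `D ≥ 1` and `e` be natural numbers, `ω_j` a basis of `κ` over `ℚ`, and `N'` a finite set
of pairs `(k, j)`, containing one of the pairs `(0, j)`. Then there are numbers `C` and `θ₀ > 0` such that for all `X ≥ 1`, of the
`(2X+1)^n`, `n = (D + 1 + m (e + 1)) [κ : ℚ] + |N'|`, tuples `(F, G_1, …, G_m, G_0)` of a polynomial
`F = ∑_k (∑_j a_(k,j) ω_j) y^k` of degree at most `D`, polynomials `G_i` of this form of degree at most `e`, and
`G_0 = ∑_((k,j) ∈ N') a_(k,j) ω_j y^k`, all `a_(k,j)` integers with `|a_(k,j)| ≤ X`, at most `C X^(n - θ₀)` have an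
algebraic root `y` of `F` with `G_0(y) ≠ 0` such that the Mumford-Tate conjecture for `H^2` at `ℓ` does not hold for the fibre
at one of the points `(t, w)` of `S₀` above `t = (G_1(y) / G_0(y), …, G_m(y) / G_0(y))`, in the form of an equality of closed
subgroup schemes of `GL r` over `ℤ_ℓ`. -/
theorem result {κ : IntermediateField ℚ Qbar} [FiniteDimensional ℚ κ] {m : ℕ} (hm : 1 ≤ m)
    {F : FamiliesM κ m} {μ r₀ r : ℕ} (E : F.Sub μ r₀ (Fin r)) {S : MvPolynomial (Fin m) κ}
    {U : Set (Fin m → ℂ)} {w : (Fin m → ℂ) → ℂ} (hw : IsEtaleCover κ S U μ w)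
    {P : (Fin m → ℂ) → Matrix (Fin r) (Fin r) ℂ} (hP : E.IsPeriod U w P) {ℓ : ℕ} [Fact ℓ.Prime]
    (Y : ∀ k : ℕ, CoverData κ (Fin r → ZMod (ℓ ^ k)) U w) {lev : Fin r → ℤ}
    (hlev : ∀ x, 0 ≤ lev x ∧ lev x ≤ 2) {ψ : Matrix (Fin r) (Fin r) ℤ}
    (h : IsLocalSystem S P Y lev 2 ψ) {d : ℕ} {B : Matrix (Fin r) (Fin d) ℤ}
    {𝓔 : Set (Matrix (Fin r) (Fin r) ℚ)} (hN : NoCentF S P Y ψ B 𝓔) {t₀ : Fin m → ℂ} (ht₀ : t₀ ∈ U)
    (halg : ∀ i, IsAlgebraic ℚ (t₀ i))
    (h₀ : AtPoint κ w t₀ fun _ _ act => Q1Part act (pts Y t₀) lev ψ (P t₀) B 𝓔)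
    {J : Type} [Fintype J] (ω : Module.Basis J ℚ κ)
    {D : ℕ} (hD : 1 ≤ D) (e : ℕ) (N' : Finset (ℕ × J)) (hN' : ∃ j, (0, j) ∈ N') :
    ∃ C θ₀ : ℝ, 0 < θ₀ ∧ ∀ X : ℕ, 1 ≤ X → ((SmallQ1C (basC ω) N' S P Y lev D e X).ncard : ℝ) ≤
      C * (X : ℝ) ^ ((((D + 1 + m * (e + 1)) * Module.finrank ℚ κ + N'.card : ℕ) : ℝ) - θ₀) :=
  mostN hm E hw hP Y hlev h hN ht₀ halg h₀ ω hD e N' hN'

end Pool.Agent.Results.MP_6369ef_ag.MostFibres
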